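import Pool.Agent.W207.SW.SpecS

/-!
Project SW, part FF: elementary properties of the transform of a truncated function.
-/

set_option autoImplicit false

open Complex Filter Topology Set MeasureTheory

namespace Pool.Agent.W790.SW

open W207.PR (Tst ct dt)
open W207.SW

theorem norm_sin_le (w : ℂ) : ‖Complex.sin w‖ ≤ Real.exp |w.im| := by
  have h1 : ‖Complex.exp (-w * I)‖ ≤ Real.exp |w.im| := by
    rw [Complex.norm_exp]
    apply Real.exp_le_exp.2
    have : (-w * I).re = w.im := by simp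
    rw [this]; exact le_abs_self _
  have h2 : ‖Complex.exp (w * I)‖ ≤ Real.exp |w.im| := by
    rw [Complex.norm_exp]
    apply Real.exp_le_exp.2
    have : (w * I).re = -w.im := by simp
    rw [this]; exact neg_le_abs _
  rw [Complex.sin, norm_div, norm_mul, Complex.norm_I, mul_one]
  have h3 := norm_sub_le (Complex.exp (-w * I)) (Complex.exp (w * I))
  have h4 : ‖(2 : ℂ)‖ = 2 := by simp
  rw [h4, div_le_iff₀ (by norm_num)]
  linarith

theorem norm_cos_le (w : ℂ) : ‖Complex.cos w‖ ≤ Real.exp |w.im| := by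
  have h1 : ‖Complex.exp (-w * I)‖ ≤ Real.exp |w.im| := by
    rw [Complex.norm_exp]
    apply Real.exp_le_exp.2
    have : (-w * I).re = w.im := by simp
    rw [this]; exact le_abs_self _
  have h2 : ‖Complex.exp (w * I)‖ ≤ Real.exp |w.im| := by
    rw [Complex.norm_exp]
    apply Real.exp_le_exp.2
    have : (w * I).re = -w.im := by simp
    rw [this]; exact neg_le_abs _
  rw [Complex.cos, norm_div]
  have h3 := norm_add_le (Complex.exp (w * I)) (Complex.exp (-w * I))
  have h4 : ‖(2 : ℂ)‖ = 2 := by simp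
  rw [h4, div_le_iff₀ (by norm_num)]
  linarith

theorem abs_im_arg (z : ℂ) {t R A : ℝ} (ht : 0 < t) (htR : t ≤ R) (hA : |z.im| ≤ A) :
    |(2 * (Real.pi : ℂ) * z * t).im| ≤ 2 * Real.pi * R * A := by
  have e : (2 * (Real.pi : ℂ) * z * t).im = 2 * Real.pi * t * z.im := by
    have : (2 * (Real.pi : ℂ) * z * t) = ((2 * Real.pi * t : ℝ) : ℂ) * z := by push_cast; ring
    rw [this, Complex.im_ofReal_mul]
  rw [e, abs_mul, abs_of_pos (by positivity)]
  have : 0 ≤ A := (abs_nonneg _).trans hA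
  have hR0 : 0 ≤ R := ht.le.trans htR
  gcongr

section
variable {O : ℝ → ℝ} {c R C0 C : ℝ}

theorem W_bound (hG : Gr O C0) (h0 : 0 < C0) (hc : |c| ≤ C * (1 + R)) :
    ∀ᵐ u ∂(volume.restrict (Ioc (0 : ℝ) R)), |O u - c| ≤ (C0 + C) * (1 + R) := by
  have h1 := ae_restrict_of_ae_restrict_of_subset
    (fun u hu => hu.1 : Ioc (0 : ℝ) R ⊆ Ioi 0) hG.2
  filter_upwards [h1, ae_restrict_mem measurableSet_Ioc] with u hu hm
  have h2 : |O u - c| ≤ |O u| + |c| := abs_sub _ _
  have h3 : C0 * (1 + u) ≤ C0 * (1 + R) := by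
    apply mul_le_mul_of_nonneg_left _ h0.le
    linarith [hm.2]
  linarith

theorem W_int (hG : Gr O C0) (h0 : 0 < C0) (hc : |c| ≤ C * (1 + R)) :
    IntegrableOn (fun u => O u - c) (Ioc (0 : ℝ) R) := by
  refine Measure.integrableOn_of_bounded (M := (C0 + C) * (1 + R)) (by simp)
    (hG.1.sub_const c).aestronglyMeasurable ?_
  exact W_bound hG h0 hc

theorem W_bound' (hG : Gr O C0) (h0 : 0 < C0) (hR : 1 ≤ R) (hc : |c| ≤ C * (1 + R)) :
    ∀ᵐ u : ℝ, u ∈ uIoc (0 : ℝ) R → |O u - c| ≤ (C0 + C) * (1 + R) := by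
  rw [uIoc_of_le (by linarith)]
  exact (ae_restrict_iff' measurableSet_Ioc).1 (W_bound hG h0 hc)

theorem F_meas (hO : Measurable O) (z : ℂ) (μ : Measure ℝ) : AEStronglyMeasurable
    (fun u : ℝ => ((O u - c : ℝ) : ℂ) * Complex.sin (2 * Real.pi * z * u)) μ := by
  have h1 : Measurable fun u : ℝ => ((O u - c : ℝ) : ℂ) :=
    Complex.measurable_ofReal.comp (hO.sub_const c)
  have h2 : Continuous fun u : ℝ => Complex.sin (2 * Real.pi * z * u) := by fun_prop
  exact (h1.mul h2.measurable).aestronglyMeasurable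

theorem F_bd (hG : Gr O C0) (h0 : 0 < C0) (hR : 1 ≤ R) (hc : |c| ≤ C * (1 + R)) (z : ℂ) :
    ∀ᵐ u : ℝ, u ∈ uIoc (0 : ℝ) R →
      ‖((O u - c : ℝ) : ℂ) * Complex.sin (2 * Real.pi * z * u)‖ ≤
        (C0 + C) * (1 + R) * Real.exp (2 * Real.pi * R * |z.im|) := by
  filter_upwards [W_bound' hG h0 hR hc] with u hu hm
  have h1 := hu hm
  rw [uIoc_of_le (by linarith)] at hm
  rw [norm_mul, Complex.norm_real, Real.norm_eq_abs]
  refine mul_le_mul h1 ((norm_sin_le _).trans (Real.exp_le_exp.2 ?_)) (norm_nonneg _)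
    ((abs_nonneg _).trans h1)
  exact abs_im_arg z hm.1 hm.2 le_rfl

theorem I_diff (hG : Gr O C0) (h0 : 0 < C0) (hR : 1 ≤ R) (hc : |c| ≤ C * (1 + R)) :
    Differentiable ℂ (fun z : ℂ =>
      ∫ u in (0 : ℝ)..R, ((O u - c : ℝ) : ℂ) * Complex.sin (2 * Real.pi * z * u)) := by
  intro z₀
  have key := intervalIntegral.hasDerivAt_integral_of_dominated_loc_of_deriv_le
    (𝕜 := ℂ) (μ := volume) (a := (0 : ℝ)) (b := R)
    (F := fun z u => ((O u - c : ℝ) : ℂ) * Complex.sin (2 * Real.pi * z * u))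
    (F' := fun z u => ((O u - c : ℝ) : ℂ) * (Complex.cos (2 * Real.pi * z * u) *
      (2 * Real.pi * u)))
    (x₀ := z₀) (s := Metric.ball z₀ 1)
    (bound := fun _ => (C0 + C) * (1 + R) * (Real.exp (2 * Real.pi * R * (|z₀.im| + 1)) *
      (2 * Real.pi * R)))
    (Metric.ball_mem_nhds z₀ one_pos)
    (Eventually.of_forall fun z => F_meas hG.1 z _) ?_ ?_ ?_ (by simp) ?_
  · exact key.2.differentiableAt
  · rw [intervalIntegrable_iff]
    refine Measure.integrableOn_of_bounded
      (M := (C0 + C) * (1 + R) * Real.exp (2 * Real.pi * R * |z₀.im|)) (by simp)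
      (F_meas hG.1 z₀ _) ?_
    exact (ae_restrict_iff' measurableSet_uIoc).2 (F_bd hG h0 hR hc z₀)
  · have h1 : Measurable fun u : ℝ => ((O u - c : ℝ) : ℂ) :=
      Complex.measurable_ofReal.comp (hG.1.sub_const c)
    have h2 : Continuous fun u : ℝ => Complex.cos (2 * Real.pi * z₀ * u) * (2 * Real.pi * u) := by
      fun_prop
    exact (h1.mul h2.measurable).aestronglyMeasurable
  · filter_upwards [W_bound' hG h0 hR hc] with u hu hm z hz
    have h1 := hu hm
    rw [uIoc_of_le (by linarith)] at hm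
    rw [norm_mul, Complex.norm_real, Real.norm_eq_abs, norm_mul]
    have h2 : |z.im| ≤ |z₀.im| + 1 := by
      have h3 : |(z - z₀).im| ≤ ‖z - z₀‖ := Complex.abs_im_le_norm _
      have h4 : ‖z - z₀‖ < 1 := by rwa [Metric.mem_ball, dist_eq_norm] at hz
      have h5 : z.im = (z - z₀).im + z₀.im := by simp
      calc |z.im| = |(z - z₀).im + z₀.im| := by rw [← h5]
        _ ≤ |(z - z₀).im| + |z₀.im| := abs_add_le _ _
        _ ≤ |z₀.im| + 1 := by linarith
    have h3 : ‖Complex.cos (2 * Real.pi * z * u)‖ ≤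
        Real.exp (2 * Real.pi * R * (|z₀.im| + 1)) :=
      (norm_cos_le _).trans (Real.exp_le_exp.2 (abs_im_arg z hm.1 hm.2 h2))
    have h4 : ‖(2 * Real.pi * u : ℂ)‖ ≤ 2 * Real.pi * R := by
      have : (2 * Real.pi * u : ℂ) = ((2 * Real.pi * u : ℝ) : ℂ) := by push_cast; ring
      rw [this, Complex.norm_real, Real.norm_eq_abs, abs_of_pos (by have := hm.1; positivity)]
      have := hm.2
      gcongr
    exact mul_le_mul h1 (mul_le_mul h3 h4 (norm_nonneg _) (Real.exp_pos _).le)
      (mul_nonneg (norm_nonneg _) (norm_nonneg _)) ((abs_nonneg _).trans h1)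
  · refine Eventually.of_forall fun u _ z _ => ?_
    have h1 : HasDerivAt (fun z : ℂ => 2 * Real.pi * z * u) (2 * Real.pi * u) z := by
      simpa using ((hasDerivAt_id z).const_mul (2 * Real.pi : ℂ)).mul_const (u : ℂ)
    exact ((Complex.hasDerivAt_sin _).comp z h1).const_mul _

/-! ### test functions -/

theorem tst_cont {Λ : ℝ} {ψ : ℝ → ℝ} (h : TstL Λ ψ) : Continuous ψ := (h.smooth 0).continuous

theorem tst_supp {Λ : ℝ} {ψ : ℝ → ℝ} (h : TstL Λ ψ) : HasCompactSupport ψ := by
  obtain ⟨μ, hμ, -, hs⟩ := h.supp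
  refine HasCompactSupport.of_support_subset_isCompact (isCompact_Icc (a := -μ) (b := μ)) ?_
  intro x hx
  by_contra hcon
  apply hx
  apply hs
  rw [mem_Icc, ← abs_le, not_le] at hcon
  exact hcon.le

theorem tst_int {Λ : ℝ} {ψ : ℝ → ℝ} (h : TstL Λ ψ) : Integrable ψ :=
  (tst_cont h).integrable_of_hasCompactSupport (tst_supp h)

theorem p_int {Λ : ℝ} {ψ : ℝ → ℝ} (h : TstL Λ ψ) : Integrable (fun α => 2 * Real.pi * α * ψ α) := by
  have h1 : Continuous fun α => 2 * Real.pi * α * ψ α := by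
    have := tst_cont h
    fun_prop
  exact h1.integrable_of_hasCompactSupport (tst_supp h).mul_left

theorem ct_deriv {Λ : ℝ} {ψ : ℝ → ℝ} (h : TstL Λ ψ) (x : ℝ) : HasDerivAt (ct ψ) (dt ψ x) x := by
  have hψ := tst_cont h
  have key := hasDerivAt_integral_of_dominated_loc_of_deriv_le (μ := (volume : Measure ℝ))
    (F := fun (x : ℝ) (α : ℝ) => ψ α * Real.cos (2 * Real.pi * α * x))
    (F' := fun (x : ℝ) (α : ℝ) => -((2 * Real.pi * α * ψ α) * Real.sin (2 * Real.pi * α * x)))
    (x₀ := x) (s := univ) (bound := fun α => ‖2 * Real.pi * α * ψ α‖) univ_mem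
    (Eventually.of_forall fun y => by
      have : Continuous fun α => ψ α * Real.cos (2 * Real.pi * α * y) := by fun_prop
      exact this.aestronglyMeasurable) ?_ ?_ ?_ (p_int h).norm ?_
  · have h2 := key.2
    rw [integral_neg] at h2
    exact h2
  · refine (tst_int h).mul_bdd (c := 1) ?_ ?_
    · have : Continuous fun α : ℝ => Real.cos (2 * Real.pi * α * x) := by fun_prop
      exact this.aestronglyMeasurable
    · exact Eventually.of_forall fun α => by
        rw [Real.norm_eq_abs]; exact Real.abs_cos_le_one _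
  · have : Continuous fun α => -((2 * Real.pi * α * ψ α) * Real.sin (2 * Real.pi * α * x)) := by
      fun_prop
    exact this.aestronglyMeasurable
  · refine Eventually.of_forall fun α y _ => ?_
    rw [norm_neg, norm_mul]
    have : ‖Real.sin (2 * Real.pi * α * y)‖ ≤ 1 := by
      rw [Real.norm_eq_abs]; exact Real.abs_sin_le_one _
    exact mul_le_of_le_one_right (norm_nonneg _) this
  · refine Eventually.of_forall fun α y _ => ?_
    have h1 : HasDerivAt (fun y : ℝ => 2 * Real.pi * α * y) (2 * Real.pi * α) y := by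
      simpa using (hasDerivAt_id y).const_mul (2 * Real.pi * α)
    have h2 : HasDerivAt (fun y => ψ α * Real.cos (2 * Real.pi * α * y))
        (ψ α * (-Real.sin (2 * Real.pi * α * y) * (2 * Real.pi * α))) y :=
      ((Real.hasDerivAt_cos _).comp y h1).const_mul (ψ α)
    exact h2.congr_deriv (by ring)

theorem dt_cont {Λ : ℝ} {ψ : ℝ → ℝ} (h : TstL Λ ψ) : Continuous (dt ψ) := by
  have hψ := tst_cont h
  unfold dt
  refine Continuous.neg ?_
  refine continuous_of_dominated (bound := fun α => ‖2 * Real.pi * α * ψ α‖) ?_ ?_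
    (p_int h).norm ?_
  · intro x
    have : Continuous fun α => (2 * Real.pi * α * ψ α) * Real.sin (2 * Real.pi * α * x) := by
      fun_prop
    exact this.aestronglyMeasurable
  · intro x
    refine Eventually.of_forall fun α => ?_
    rw [norm_mul]
    have : ‖Real.sin (2 * Real.pi * α * x)‖ ≤ 1 := by
      rw [Real.norm_eq_abs]; exact Real.abs_sin_le_one _
    exact mul_le_of_le_one_right (norm_nonneg _) this
  · refine Eventually.of_forall fun α => ?_
    fun_prop

theorem fub (hG : Gr O C0) (h0 : 0 < C0) (hR : 1 ≤ R) (hc : |c| ≤ C * (1 + R))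
    (ψ : ℝ → ℝ) (Λ : ℝ) (h : TstL Λ ψ) :
    ∫ u in (0 : ℝ)..R, dt ψ u * O u = c * ct ψ R - ∫ ξ : ℝ, ψ ξ * ffr O c R ξ := by
  have hR0 : (0 : ℝ) ≤ R := by linarith
  have hp := p_int h
  have hW := W_int hG h0 hc
  have hk : Integrable (fun z : ℝ × ℝ => (2 * Real.pi * z.1 * ψ z.1) *
      ((O z.2 - c) * Real.sin (2 * Real.pi * z.1 * z.2)))
      (volume.prod (volume.restrict (Ioc (0 : ℝ) R))) := by
    have h1 := (hp.mul_prod hW).mul_bdd (c := 1)
      (g := fun z : ℝ × ℝ => Real.sin (2 * Real.pi * z.1 * z.2)) (by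
        have : Continuous fun z : ℝ × ℝ => Real.sin (2 * Real.pi * z.1 * z.2) := by fun_prop
        exact this.aestronglyMeasurable)
      (Eventually.of_forall fun z => by
        rw [Real.norm_eq_abs]; exact Real.abs_sin_le_one _)
    refine h1.congr (Eventually.of_forall fun z => ?_)
    simp only []
    ring
  have e1 : ∀ ξ, ψ ξ * ffr O c R ξ = c * ψ ξ + ∫ u in Ioc (0 : ℝ) R,
      (2 * Real.pi * ξ * ψ ξ) * ((O u - c) * Real.sin (2 * Real.pi * ξ * u)) := by
    intro ξ
    unfold ffr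
    rw [integral_const_mul, intervalIntegral.integral_of_le hR0]
    ring
  have e2 : ∀ u, ∫ ξ, (2 * Real.pi * ξ * ψ ξ) * ((O u - c) * Real.sin (2 * Real.pi * ξ * u)) =
      -((O u - c) * dt ψ u) := by
    intro u
    unfold dt
    rw [mul_neg, neg_neg, ← integral_const_mul]
    refine integral_congr_ae (Eventually.of_forall fun ξ => ?_)
    simp only []
    ring
  have e3 : ∫ ξ, ψ ξ * ffr O c R ξ = c * ct ψ 0 - ∫ u in Ioc (0 : ℝ) R, (O u - c) * dt ψ u := by
    simp only [e1]
    rw [integral_add ((tst_int h).const_mul c) hk.integral_prod_left, integral_const_mul]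
    rw [integral_integral_swap hk]
    simp only [e2]
    rw [integral_neg]
    have : ct ψ 0 = ∫ ξ, ψ ξ := by
      unfold ct
      simp
    rw [this]
    ring
  have e4 : ∫ u in (0 : ℝ)..R, dt ψ u = ct ψ R - ct ψ 0 :=
    intervalIntegral.integral_eq_sub_of_hasDerivAt (fun x _ => ct_deriv h x)
      ((dt_cont h).intervalIntegrable _ _)
  have hWi : IntervalIntegrable (fun u => O u - c) volume 0 R :=
    (intervalIntegrable_iff_integrableOn_Ioc_of_le hR0).2 hW
  have e5 : ∫ u in (0 : ℝ)..R, dt ψ u * O u =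
      (∫ u in (0 : ℝ)..R, dt ψ u * (O u - c)) + c * ∫ u in (0 : ℝ)..R, dt ψ u := by
    rw [← intervalIntegral.integral_const_mul, ← intervalIntegral.integral_add]
    · refine intervalIntegral.integral_congr fun u _ => ?_
      show dt ψ u * O u = dt ψ u * (O u - c) + c * dt ψ u
      ring
    · exact hWi.continuousOn_mul (dt_cont h).continuousOn
    · exact ((dt_cont h).intervalIntegrable _ _).const_mul c
  rw [e5, e4, e3, intervalIntegral.integral_of_le hR0]
  have e6 : ∫ u in Ioc (0 : ℝ) R, dt ψ u * (O u - c) = ∫ u in Ioc (0 : ℝ) R, (O u - c) * dt ψ u := by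
    refine integral_congr_ae (Eventually.of_forall fun u => ?_)
    simp only []
    ring
  rw [e6]
  ring

end

theorem main : S_FF := by
  intro C0 C h0 hC
  refine ⟨C + 2 * Real.pi * (C0 + C), by positivity, ?_⟩
  intro O c R hG hR hc
  have hR0 : (0 : ℝ) ≤ R := by linarith
  have hI := I_diff hG h0 hR hc
  refine ⟨?_, ?_, ?_, fun ψ Λ h => fub hG h0 hR hc ψ Λ h⟩
  · unfold ff
    exact (differentiable_const _).add
      (((differentiable_const _).mul differentiable_id).mul hI)
  · intro z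
    unfold ff
    have h1 := intervalIntegral.norm_integral_le_of_norm_le_const_ae (F_bd hG h0 hR hc z)
    rw [sub_zero, abs_of_nonneg hR0] at h1
    have h2 : ‖(c : ℂ)‖ ≤ C * (1 + R) := by
      rw [Complex.norm_real, Real.norm_eq_abs]; exact hc
    have h3 : ‖(2 * Real.pi * z : ℂ)‖ = 2 * Real.pi * ‖z‖ := by
      have : (2 * Real.pi * z : ℂ) = ((2 * Real.pi : ℝ) : ℂ) * z := by push_cast; ring
      rw [this, norm_mul, Complex.norm_real, Real.norm_eq_abs, abs_of_pos (by positivity)]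
    have h4 : 1 ≤ Real.exp (2 * Real.pi * R * |z.im|) := Real.one_le_exp (by positivity)
    set E := Real.exp (2 * Real.pi * R * |z.im|) with hE
    have h5 : ‖z‖ ≤ 1 + ‖z‖ := by linarith
    have h6 : R ≤ 1 + R := by linarith
    have h7 : 1 ≤ (1 + R) := by linarith
    have h8 : 1 ≤ 1 + ‖z‖ := by linarith [norm_nonneg z]
    calc _ ≤ ‖(c : ℂ)‖ + ‖(2 * Real.pi * z : ℂ)‖ *
          ‖∫ u in (0 : ℝ)..R, ((O u - c : ℝ) : ℂ) * Complex.sin (2 * Real.pi * z * u)‖ := by
          rw [← norm_mul]; exact norm_add_le _ _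
      _ ≤ C * (1 + R) + 2 * Real.pi * ‖z‖ * ((C0 + C) * (1 + R) * E * R) := by
          rw [h3]
          gcongr
      _ ≤ C * (1 + R) ^ 2 * (1 + ‖z‖) * E + 2 * Real.pi * (1 + ‖z‖) *
          ((C0 + C) * (1 + R) * E * (1 + R)) := by
          have a1 : C * (1 + R) ≤ C * (1 + R) ^ 2 * (1 + ‖z‖) * E := by
            have b1 : C * (1 + R) * 1 ≤ C * (1 + R) * (1 + R) := by gcongr
            have b2 : C * (1 + R) * (1 + R) * 1 ≤ C * (1 + R) * (1 + R) * (1 + ‖z‖) := by gcongr
            have b3 : C * (1 + R) * (1 + R) * (1 + ‖z‖) * 1 ≤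
              C * (1 + R) * (1 + R) * (1 + ‖z‖) * E := by gcongr
            calc C * (1 + R) ≤ C * (1 + R) * (1 + R) * (1 + ‖z‖) * E := by linarith
              _ = _ := by ring
          have a2 : 2 * Real.pi * ‖z‖ * ((C0 + C) * (1 + R) * E * R) ≤
              2 * Real.pi * (1 + ‖z‖) * ((C0 + C) * (1 + R) * E * (1 + R)) := by gcongr
          linarith
      _ = (C + 2 * Real.pi * (C0 + C)) * (1 + R) ^ 2 * (1 + ‖z‖) * E := by ring
  · intro x
    unfold ff ffr
    push_cast
    rw [← intervalIntegral.integral_ofReal]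
    push_cast
    rfl

end Pool.Agent.W790.SW
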